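import Pool.Agent.Helper65_PV.Final

/-!
Most convex bodies are determined by their projection volumes and projection centroids.
-/

open MeasureTheory

namespace Pool.Agent.Results.MP_e25c73_gt.MostConvexBodies

/-- The orthogonal projection of `x` onto the hyperplane orthogonal to the unit vector `u`. -/
noncomputable def proj {n : ℕ} (u x : EuclideanSpace ℝ (Fin n)) : EuclideanSpace ℝ (Fin n) :=
  x - (inner ℝ x u) • u

/-- `b_K(u)`: the `(n-1)`-dimensional volume (Hausdorff measure) of the projection of `K` onto the
hyperplane orthogonal to `u`. -/
noncomputable def brightness {n : ℕ} (K : Set (EuclideanSpace ℝ (Fin n)))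
    (u : EuclideanSpace ℝ (Fin n)) : ENNReal :=
  Measure.hausdorffMeasure ((n : ℝ) - 1) (proj u '' K)

/-- `c_K(u)`: the centroid of the projection of `K` onto the hyperplane orthogonal to `u`. -/
noncomputable def centroid {n : ℕ} (K : Set (EuclideanSpace ℝ (Fin n)))
    (u : EuclideanSpace ℝ (Fin n)) : EuclideanSpace ℝ (Fin n) :=
  (brightness K u).toReal⁻¹ •
    ∫ x in proj u '' K, x
      ∂(Measure.hausdorffMeasure ((n : ℝ) - 1) : Measure (EuclideanSpace ℝ (Fin n)))

/-- The convex bodies `K` of `ℝⁿ` (compact, convex, with interior points) that are determined by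
their projection data: every convex body `L` with interior points and the same projection volumes
and projection centroids as `K` in all directions is equal to `K`. The metric of Mathlib on
`ConvexBody` (nonempty compact convex sets) is the Hausdorff distance. -/
def Determined (n : ℕ) : Set (ConvexBody (EuclideanSpace ℝ (Fin n))) :=
  {K | (interior (K : Set (EuclideanSpace ℝ (Fin n)))).Nonempty ∧
    ∀ L : ConvexBody (EuclideanSpace ℝ (Fin n)),
      (interior (L : Set (EuclideanSpace ℝ (Fin n)))).Nonempty →
      (∀ u : EuclideanSpace ℝ (Fin n), ‖u‖ = 1 →
        brightness (K : Set (EuclideanSpace ℝ (Fin n))) u =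
          brightness (L : Set (EuclideanSpace ℝ (Fin n))) u ∧
        centroid (K : Set (EuclideanSpace ℝ (Fin n))) u =
          centroid (L : Set (EuclideanSpace ℝ (Fin n))) u) → K = L}

/-- Most convex bodies are determined by their projection volumes and projection centroids: for
`n ≥ 3` the determined convex bodies form a dense `G_δ` set in the complete metric space of the
nonempty compact convex subsets of `ℝⁿ`. -/
theorem result (n : ℕ) (hn : 3 ≤ n) :
    CompleteSpace (ConvexBody (EuclideanSpace ℝ (Fin n))) ∧
      IsGδ (Determined n) ∧ Dense (Determined n) :=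
  ⟨PV.complete n, (PV.main n hn).1, (PV.main n hn).2⟩

end Pool.Agent.Results.MP_e25c73_gt.MostConvexBodies
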