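import Pool.Agent.Helper4_PV3.All

/-!
In three-dimensional space every polytope without parallel facets is determined, among all convex
bodies, by its projection volumes and projection centroids.
-/

open MeasureTheory

namespace Pool.Agent.Results.MP_e25c73_gt.PolytopesWithoutParallelFacets

/-- The orthogonal projection of `x` onto the plane orthogonal to the unit vector `u`. -/
noncomputable def proj (u x : EuclideanSpace ℝ (Fin 3)) : EuclideanSpace ℝ (Fin 3) :=
  x - (inner ℝ x u) • u

/-- `b_K(u)`: the area (two-dimensional Hausdorff measure) of the projection of `K` onto the plane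
orthogonal to `u`. -/
noncomputable def brightness (K : Set (EuclideanSpace ℝ (Fin 3)))
    (u : EuclideanSpace ℝ (Fin 3)) : ENNReal :=
  Measure.hausdorffMeasure 2 (proj u '' K)

/-- `c_K(u)`: the centroid of the projection of `K` onto the plane orthogonal to `u`. -/
noncomputable def centroid (K : Set (EuclideanSpace ℝ (Fin 3)))
    (u : EuclideanSpace ℝ (Fin 3)) : EuclideanSpace ℝ (Fin 3) :=
  (brightness K u).toReal⁻¹ •
    ∫ x in proj u '' K, x ∂(Measure.hausdorffMeasure 2 : Measure (EuclideanSpace ℝ (Fin 3)))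

/-- The face of `K` with outward normal vector `w`: the points of `K` at which the linear function
`⟨·, w⟩` attains its maximum over `K`. -/
def face (K : Set (EuclideanSpace ℝ (Fin 3))) (w : EuclideanSpace ℝ (Fin 3)) :
    Set (EuclideanSpace ℝ (Fin 3)) :=
  {x | x ∈ K ∧ ∀ y ∈ K, inner ℝ y w ≤ inner ℝ x w}

/-- `K` is a polytope of dimension three: a bounded set with interior points that is the
intersection of finitely many closed half-spaces. -/
def IsPolytope (K : Set (EuclideanSpace ℝ (Fin 3))) : Prop :=
  Bornology.IsBounded K ∧ (interior K).Nonempty ∧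
    ∃ (m : ℕ) (v : Fin m → EuclideanSpace ℝ (Fin 3)) (c : Fin m → ℝ),
      K = {x | ∀ i, inner ℝ x (v i) ≤ c i}

/-- `K` has no parallel facets: for no direction `w` both faces of `K` with the outward normal
vectors `w` and `-w` are two-dimensional. -/
def NoParallelFacets (K : Set (EuclideanSpace ℝ (Fin 3))) : Prop :=
  ∀ w : EuclideanSpace ℝ (Fin 3), w ≠ 0 →
    ¬ (Module.finrank ℝ (vectorSpan ℝ (face K w)) = 2 ∧
      Module.finrank ℝ (vectorSpan ℝ (face K (-w))) = 2)

theorem finrank_face_le (K : Set (EuclideanSpace ℝ (Fin 3)))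
    {w : EuclideanSpace ℝ (Fin 3)} (hw : w ≠ 0) :
    Module.finrank ℝ (vectorSpan ℝ (face K w)) ≤ 2 := by
  have h1 : vectorSpan ℝ (face K w) ≤ (Submodule.span ℝ {w})ᗮ := by
    unfold vectorSpan
    rw [Submodule.span_le]
    rintro _ ⟨x, hx, y, hy, rfl⟩
    rw [SetLike.mem_coe, Submodule.mem_orthogonal_singleton_iff_inner_left]
    have h2 := le_antisymm (hx.2 y hy.1) (hy.2 x hx.1)
    show inner ℝ (x - y) w = 0
    rw [inner_sub_left, h2, sub_self]
  have h2 := Submodule.finrank_mono h1
  have h3 := (Submodule.span ℝ {w}).finrank_add_finrank_orthogonal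
  rw [finrank_span_singleton hw, finrank_euclideanSpace_fin] at h3
  omega

theorem brightness_eq (K : Set (EuclideanSpace ℝ (Fin 3)))
    (u : EuclideanSpace ℝ (Fin 3)) : PV.brightness K u = brightness K u := by
  have h : ((3 : ℕ) : ℝ) - 1 = 2 := by norm_num
  show Measure.hausdorffMeasure (((3 : ℕ) : ℝ) - 1) (proj u '' K) = _
  rw [h]
  rfl

theorem centroid_eq (K : Set (EuclideanSpace ℝ (Fin 3)))
    (u : EuclideanSpace ℝ (Fin 3)) : PV.centroid K u = centroid K u := by
  have h : ((3 : ℕ) : ℝ) - 1 = 2 := by norm_num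
  show (PV.brightness K u).toReal⁻¹ • ∫ x in proj u '' K, x
    ∂(Measure.hausdorffMeasure (((3 : ℕ) : ℝ) - 1) : Measure (EuclideanSpace ℝ (Fin 3))) = _
  rw [brightness_eq, h]
  rfl

/-- Let `K` be a polytope in `ℝ³` without parallel facets and `L` an arbitrary convex body. If all
projections of `K` and `L` onto planes have the same areas and the same centroids, then
`K = L`. -/
theorem result (K L : Set (EuclideanSpace ℝ (Fin 3))) (hK : IsPolytope K)
    (hKf : NoParallelFacets K) (hLc : IsCompact L) (hLv : Convex ℝ L)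
    (hLi : (interior L).Nonempty)
    (h : ∀ u : EuclideanSpace ℝ (Fin 3), ‖u‖ = 1 →
      brightness K u = brightness L u ∧ centroid K u = centroid L u) : K = L := by
  obtain ⟨hKb, hKi, m, v, c, hKv⟩ := hK
  have hKcl : IsClosed K := by
    rw [hKv, Set.ofPred_forall]
    exact isClosed_iInter fun i => isClosed_le (by fun_prop) continuous_const
  have hKcv : Convex ℝ K := by
    rw [hKv, Set.ofPred_forall]
    refine convex_iInter fun i => ?_
    exact (convex_Iic (c i)).is_linear_preimage
      (f := fun x : EuclideanSpace ℝ (Fin 3) => (inner ℝ x (v i) : ℝ))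
      ⟨fun x y => inner_add_left x y (v i), fun a x => real_inner_smul_left x (v i) a⟩
  refine PV3.H4.all (Fin m) v c K L hKv ⟨Metric.isCompact_of_isClosed_isBounded hKcl hKb, hKcv, hKi⟩
    (fun w hw => ?_) ⟨hLc, hLv, hLi⟩ (fun u hu => ?_)
  · have h1 := finrank_face_le K hw
    have h2 := finrank_face_le K (neg_ne_zero.2 hw)
    have h3 := hKf w hw
    by_contra hcon
    push Not at hcon
    exact h3 ⟨le_antisymm h1 hcon.1, le_antisymm h2 hcon.2⟩
  · obtain ⟨hb, hc⟩ := h u hu
    exact ⟨by rw [brightness_eq, brightness_eq]; exact hb,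
      by rw [centroid_eq, centroid_eq]; exact hc⟩

end Pool.Agent.Results.MP_e25c73_gt.PolytopesWithoutParallelFacets
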